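import Pool.Agent.Q92.AR.Def

/-!
# Project MZ: inertia groups and unramified primes
-/

set_option autoImplicit false
set_option linter.unusedSectionVars false

namespace Pool.Agent.Q238.MZ

open NumberField IsDedekindDomain Pool.Agent.W401.Cheb Pool.Agent.W353.NF Pool.Agent.Q5.BR
  Pool.Agent.Q92.PA
open Pool.Agent.Q92.AR (Unramified rd_injective emb_bijective)

section
variable {K M : Type} [Field K] [NumberField K] [Field M] [NumberField M] [Algebra K M]

/-- `g` is in the inertia group at `P`. -/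
def InrAt (P : HeightOneSpectrum (𝓞 M)) (g : M ≃ₐ[K] M) : Prop :=
  ∀ x : 𝓞 M, ∃ y ∈ P.asIdeal, (y : M) = g (x : M) - (x : M)

theorem inr_trivial {P : HeightOneSpectrum (𝓞 M)} (hu : Unramified M (P.under (𝓞 K)))
    {g : M ≃ₐ[K] M} (hg : InrAt P g) : g = 1 := by
  obtain ⟨σ, Q, hQm, hQv, hQ⟩ := Pool.Agent.W401.Frob.exists_frob (P.under (𝓞 K))
  obtain ⟨ι, hι⟩ := exists_emb' hQm hQv P rfl
  have h1 : ι.comp (g : M →ₐ[K] M) = ι := by
    apply rd_injective hu hQm hQv hQ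
    rw [rd_eq_iff]
    intro a
    obtain ⟨y, hy, hya⟩ := hg a
    have h2 : oi (ι.comp (g : M →ₐ[K] M)) a - oi ι a = oi ι y := by
      apply RingOfIntegers.ext
      change ι (g (a : M)) - ι (a : M) = ι (y : M)
      rw [hya, map_sub]
    rw [h2]
    exact (hι y).2 hy
  ext x
  exact ι.injective (DFunLike.congr_fun h1 x)

theorem sum_er (v : HeightOneSpectrum (𝓞 K)) :
    ∑ w ∈ above M v, Ideal.ramificationIdx' v.asIdeal w.asIdeal * rdeg K w = Module.finrank K M := by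
  have hvm : v.asIdeal.IsMaximal := v.isMaximal
  rw [← Ideal.sum_ramification_inertia (𝓞 M) K M v.ne_bot]
  refine Finset.sum_bij (fun w _ => w.asIdeal) ?_ ?_ ?_ ?_
  · intro w hw
    rw [IsDedekindDomain.mem_primesOverFinset_iff v.ne_bot]
    refine ⟨w.isPrime, ⟨?_⟩⟩
    rw [← mem_above.1 hw]
    rfl
  · intro w _ w' _ h
    exact HeightOneSpectrum.ext h
  · intro P hP
    rw [IsDedekindDomain.mem_primesOverFinset_iff v.ne_bot] at hP
    obtain ⟨hP1, hP2⟩ := hP
    refine ⟨⟨P, hP1, fun h => v.ne_bot ?_⟩, mem_above.2 (HeightOneSpectrum.ext ?_), rfl⟩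
    · rw [hP2.over, h]
      rw [eq_bot_iff]
      intro x hx
      rw [Ideal.mem_bot]
      have hx2 : algebraMap (𝓞 K) (𝓞 M) x = 0 := hx
      exact (map_eq_zero_iff _ (FaithfulSMul.algebraMap_injective (𝓞 K) (𝓞 M))).1 hx2
    · exact hP2.over.symm
  · intro w hw
    unfold rdeg
    rw [mem_above.1 hw]

theorem sum_rdeg_lt {v : HeightOneSpectrum (𝓞 K)} (hv : ¬ Unramified M v) :
    ∑ w ∈ above M v, rdeg K w < Module.finrank K M := by
  rw [← sum_er v]
  have hmap : ∀ w ∈ above M v, v.asIdeal.map (algebraMap (𝓞 K) (𝓞 M)) ≤ w.asIdeal := by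
    intro w hw
    rw [Ideal.map_le_iff_le_comap, ← mem_above.1 hw]
    exact le_rfl
  have hmap0 : v.asIdeal.map (algebraMap (𝓞 K) (𝓞 M)) ≠ ⊥ := by
    rw [Ne, Ideal.map_eq_bot_iff_of_injective (FaithfulSMul.algebraMap_injective (𝓞 K) (𝓞 M))]
    exact v.ne_bot
  have hne0 : ∀ w ∈ above M v, Ideal.ramificationIdx' v.asIdeal w.asIdeal ≠ 0 := fun w hw =>
    Ideal.IsDedekindDomain.ramificationIdx'_ne_zero hmap0 w.isPrime (hmap w hw)
  refine Finset.sum_lt_sum (fun w hw => ?_) ?_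
  · exact Nat.le_mul_of_pos_left _ (Nat.pos_of_ne_zero (hne0 w hw))
  · unfold Unramified at hv
    push Not at hv
    obtain ⟨w, hw, hw2⟩ := hv
    have hwa : w ∈ above M v := mem_above.2 hw
    refine ⟨w, hwa, ?_⟩
    have h1 : Ideal.ramificationIdx' v.asIdeal w.asIdeal ≠ 1 :=
      (Ideal.ramificationIdx'_ne_one_iff (hmap w hwa)).2 hw2
    have h2 := hne0 w hwa
    have h3 : 1 < Ideal.ramificationIdx' v.asIdeal w.asIdeal := by omega
    have h4 := rdeg_pos (K := K) w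
    nlinarith

/-- unramified if the reductions of the embeddings are different -/
theorem unr_of_inj {v : HeightOneSpectrum (𝓞 K)} {σ : GK K}
    {Q : Ideal (𝓞 (AlgebraicClosure K))} (hQm : Q.IsMaximal)
    (hQv : Q.comap (algebraMap (𝓞 K) (𝓞 (AlgebraicClosure K))) = v.asIdeal)
    (hQ : ∀ x : 𝓞 (AlgebraicClosure K), σ • x - x ^ Ideal.absNorm v.asIdeal ∈ Q)
    (hinj : Function.Injective (rd (F := M) Q)) : Unramified M v := by
  classical
  by_contra hcon
  have h0 := sum_rdeg_lt hcon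
  have h1 := card_redn (F := M) v σ hQm hQv hQ 0
  have h2 : ∑ w ∈ above M v, (if rdeg K w ∣ 0 then rdeg K w else 0) =
      ∑ w ∈ above M v, rdeg K w := Finset.sum_congr rfl fun w _ => if_pos (dvd_zero _)
  rw [h2] at h1
  have h3 : Nat.card (M →ₐ[K] AlgebraicClosure K) = Module.finrank K M := by
    rw [Nat.card_eq_fintype_card, AlgHom.card]
  have h4 : Nat.card (M →ₐ[K] AlgebraicClosure K) =
      Nat.card {r : 𝓞 M →+* (𝓞 (AlgebraicClosure K) ⧸ Q) //
      (∃ i : M →ₐ[K] AlgebraicClosure K, rd Q i = r) ∧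
        ∀ a, r a ^ (Ideal.absNorm v.asIdeal ^ 0) = r a} := by
    refine Nat.card_eq_of_bijective (fun i => ⟨rd Q i, ⟨i, rfl⟩, fun a => by
      rw [pow_zero, pow_one]⟩) ⟨?_, ?_⟩
    · intro i j hij
      exact hinj (congrArg Subtype.val hij)
    · rintro ⟨r, ⟨i, rfl⟩, h⟩
      exact ⟨i, rfl⟩
  rw [← h3, h4, h1] at h0
  exact lt_irrefl _ h0

theorem unr_of_inr [IsGalois K M] {v : HeightOneSpectrum (𝓞 K)}
    (h : ∀ (P : HeightOneSpectrum (𝓞 M)) (g : M ≃ₐ[K] M), P.under (𝓞 K) = v → InrAt P g → g = 1) :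
    Unramified M v := by
  obtain ⟨σ, Q, hQm, hQv, hQ⟩ := Pool.Agent.W401.Frob.exists_frob v
  apply unr_of_inj hQm hQv hQ
  intro ι ι' hιι
  obtain ⟨g, hg⟩ := (emb_bijective ι).2 ι'
  have hg' : ∀ x, ι' x = ι (g x) := fun x => by rw [← hg]; rfl
  -- the prime of `M`
  set P0 : Ideal (𝓞 M) := Q.comap (oi ι) with hP0
  have hQp : Q.IsPrime := hQm.isPrime
  have hP0p : P0.IsPrime := Ideal.comap_isPrime _ _
  have hcomap : P0.comap (algebraMap (𝓞 K) (𝓞 M)) = v.asIdeal := by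
    rw [← hQv, hP0, Ideal.comap_comap]
    congr 1
    ext x
    change ι (algebraMap K M (x : K)) = algebraMap K (AlgebraicClosure K) (x : K)
    exact ι.commutes _
  have hP00 : P0 ≠ ⊥ := by
    intro h0
    apply v.ne_bot
    rw [← hcomap, h0, ← RingHom.ker_eq_comap_bot]
    exact (RingHom.injective_iff_ker_eq_bot _).1 (FaithfulSMul.algebraMap_injective (𝓞 K) (𝓞 M))
  have hg1 : g = 1 := by
    refine h ⟨P0, hP0p, hP00⟩ g (HeightOneSpectrum.ext hcomap) fun x => ?_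
    have hint : IsIntegral ℤ (g (x : M) - (x : M)) :=
      ((RingOfIntegers.isIntegral_coe x).map (g.toAlgHom.restrictScalars ℤ)).sub
        (RingOfIntegers.isIntegral_coe x)
    refine ⟨⟨_, hint⟩, ?_, rfl⟩
    change oi ι _ ∈ Q
    have h2 := (rd_eq_iff.1 hιι) x
    have h3 : oi ι (⟨g (x : M) - (x : M), hint⟩ : 𝓞 M) = -(oi ι x - oi ι' x) := by
      apply RingOfIntegers.ext
      change ι (g (x : M) - (x : M)) = -(ι (x : M) - ι' (x : M))
      rw [hg', map_sub]
      ring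
    rw [h3]
    exact Q.neg_mem h2
  ext x
  rw [hg', hg1]
  rfl

end

section
variable {K L M : Type} [Field K] [NumberField K] [Field L] [NumberField L] [Field M]
  [NumberField M] [Algebra K L] [Algebra K M] [Algebra L M] [IsScalarTower K L M]

/-- restriction of inertia elements -/
theorem inr_res [Normal K L] {P : HeightOneSpectrum (𝓞 M)} {g : M ≃ₐ[K] M} (hg : InrAt P g) :
    InrAt (P.under (𝓞 L)) (g.restrictNormal L) := by
  intro x
  obtain ⟨y, hy, hyx⟩ := hg (algebraMap (𝓞 L) (𝓞 M) x)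
  have hint : IsIntegral ℤ (g.restrictNormal L (x : L) - (x : L)) :=
    ((RingOfIntegers.isIntegral_coe x).map ((g.restrictNormal L).toAlgHom.restrictScalars ℤ)).sub
      (RingOfIntegers.isIntegral_coe x)
  refine ⟨⟨_, hint⟩, ?_, rfl⟩
  change algebraMap (𝓞 L) (𝓞 M) _ ∈ P.asIdeal
  have h1 : algebraMap (𝓞 L) (𝓞 M) (⟨g.restrictNormal L (x : L) - (x : L), hint⟩ : 𝓞 L) = y := by
    apply RingOfIntegers.ext
    rw [hyx]
    change algebraMap L M (g.restrictNormal L (x : L) - (x : L)) =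
      g (algebraMap L M (x : L)) - algebraMap L M (x : L)
    rw [map_sub, AlgEquiv.restrictNormal_commutes]
  rw [h1]
  exact hy

theorem under_under (P : HeightOneSpectrum (𝓞 M)) :
    (P.under (𝓞 L)).under (𝓞 K) = P.under (𝓞 K) := by
  apply HeightOneSpectrum.ext
  change (P.asIdeal.comap (algebraMap (𝓞 L) (𝓞 M))).comap (algebraMap (𝓞 K) (𝓞 L)) =
    P.asIdeal.comap (algebraMap (𝓞 K) (𝓞 M))
  rw [Ideal.comap_comap, ← IsScalarTower.algebraMap_eq (𝓞 K) (𝓞 L) (𝓞 M)]

end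

end Pool.Agent.Q238.MZ
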