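import Pool.Agent.Q5.MZ.Stm
import Pool.Agent.Q238.MZ.Inr

/-!
# Project MZ, job BC: unramified primes in composita
-/

set_option autoImplicit false
set_option linter.unusedSectionVars false

namespace Pool.Agent.Q238.MZ

open NumberField IsDedekindDomain
open Pool.Agent.Q92.AR (Unramified)
open Pool.Agent.Q5.MZ (Gen2)

theorem res_one {k L M : Type} [Field k] [Field L] [Field M] [Algebra k L] [Algebra k M]
    [Algebra L M] [IsScalarTower k L M] [Normal k L] {g : M ≃ₐ[k] M} (h : g.restrictNormal L = 1)
    (x : L) : g (algebraMap L M x) = algebraMap L M x := by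
  rw [← AlgEquiv.restrictNormal_commutes, h, AlgEquiv.one_apply]

theorem bc : Pool.Agent.Q5.MZ.S_BC := by
  intro k F L M _ _ _ _ _ _ _ _ _ _ _ _ _ _ _ _ _ _ hgen v hv
  refine ⟨fun w hw => ?_, fun hF => ?_⟩
  · have : IsGalois F M := IsGalois.tower_top_of_isGalois k F M
    apply unr_of_inr
    intro P g hP hg
    have hg0 : InrAt P (g.restrictScalars k : M ≃ₐ[k] M) := hg
    have h1 : P.under (𝓞 k) = v := by
      rw [← under_under (L := F) P, hP, hw]
    have h2 : ((g.restrictScalars k : M ≃ₐ[k] M)).restrictNormal L = 1 := by
      apply inr_trivial (P := P.under (𝓞 L)) _ (inr_res hg0)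
      rw [under_under, h1]
      exact hv
    have h3 : (g.restrictScalars k : M ≃ₐ[k] M) = 1 := by
      apply hgen
      · intro x
        exact g.commutes x
      · exact res_one h2
    ext x
    exact DFunLike.congr_fun h3 x
  · apply unr_of_inr
    intro P g hP hg
    have h2 : g.restrictNormal L = 1 := by
      apply inr_trivial (P := P.under (𝓞 L)) _ (inr_res hg)
      rw [under_under, hP]
      exact hv
    have h3 : g.restrictNormal F = 1 := by
      apply inr_trivial (P := P.under (𝓞 F)) _ (inr_res hg)
      rw [under_under, hP]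
      exact hF
    exact hgen g (res_one h3) (res_one h2)

end Pool.Agent.Q238.MZ
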