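import Pool.Agent.Q238.MZ.Inr

/-!
# Project MZ: Frobenius elements and decomposition groups
-/

set_option autoImplicit false
set_option linter.unusedSectionVars false

namespace Pool.Agent.Q238.MZ

open NumberField IsDedekindDomain Pool.Agent.W401.Cheb Pool.Agent.W353.NF Pool.Agent.Q5.BR
  Pool.Agent.Q92.PA
open Pool.Agent.Q92.AR (Unramified rd_injective emb_bijective)

section
variable {K M : Type} [Field K] [NumberField K] [Field M] [NumberField M] [Algebra K M]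

/-- `g x ≡ x ^ (q ^ i)` modulo `P`, `q` the norm of the prime of `K` below `P`. -/
def FrAt (P : HeightOneSpectrum (𝓞 M)) (g : M ≃ₐ[K] M) (i : ℕ) : Prop :=
  ∀ x : 𝓞 M, ∃ y ∈ P.asIdeal,
    (y : M) = g (x : M) - (x : M) ^ (Ideal.absNorm (P.under (𝓞 K)).asIdeal ^ i)

theorem FrAt.mul {P : HeightOneSpectrum (𝓞 M)} {g h : M ≃ₐ[K] M} {i j : ℕ} (hg : FrAt P g i)
    (hh : FrAt P h j) : FrAt P (g * h) (i + j) := by
  intro x
  set q := Ideal.absNorm (P.under (𝓞 K)).asIdeal with hq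
  obtain ⟨y, hy, hyx⟩ := hh x
  have hint : IsIntegral ℤ (h (x : M)) :=
    (RingOfIntegers.isIntegral_coe x).map (h.toAlgHom.restrictScalars ℤ)
  obtain ⟨t, ht⟩ : ∃ t : 𝓞 M, (t : M) = h (x : M) := ⟨⟨_, hint⟩, rfl⟩
  obtain ⟨z, hz, hzx⟩ := hg t
  have e2 : t = x ^ (q ^ j) + y := by
    apply RingOfIntegers.ext
    change (t : M) = (x : M) ^ (q ^ j) + (y : M)
    rw [hyx, ht]
    ring
  have e3 : t ^ (q ^ i) - (x ^ (q ^ j)) ^ (q ^ i) ∈ P.asIdeal := by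
    obtain ⟨s, hs⟩ := sub_dvd_pow_sub_pow t (x ^ (q ^ j)) (q ^ i)
    rw [hs]
    apply Ideal.mul_mem_right
    rw [e2]
    have : x ^ (q ^ j) + y - x ^ (q ^ j) = y := by ring
    rw [this]
    exact hy
  refine ⟨z + (t ^ (q ^ i) - (x ^ (q ^ j)) ^ (q ^ i)), P.asIdeal.add_mem hz e3, ?_⟩
  change (z : M) + ((t : M) ^ (q ^ i) - ((x : M) ^ (q ^ j)) ^ (q ^ i)) =
    g (h (x : M)) - (x : M) ^ (q ^ (i + j))
  rw [hzx, ht, pow_add, mul_comm (q ^ i) (q ^ j), pow_mul]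
  ring

theorem FrAt.one_zero (P : HeightOneSpectrum (𝓞 M)) : FrAt P (1 : M ≃ₐ[K] M) 0 := by
  intro x
  refine ⟨0, P.asIdeal.zero_mem, ?_⟩
  rw [pow_zero, pow_one, AlgEquiv.one_apply, sub_self]
  rfl

theorem FrAt.pow {P : HeightOneSpectrum (𝓞 M)} {g : M ≃ₐ[K] M} (hg : FrAt P g 1) (n : ℕ) :
    FrAt P (g ^ n) n := by
  induction n with
  | zero => rw [pow_zero]; exact FrAt.one_zero P
  | succ n ih => rw [pow_succ]; exact ih.mul hg

/-- existence of a Frobenius element -/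
theorem exists_fr [IsGalois K M] (P : HeightOneSpectrum (𝓞 M)) :
    ∃ g : M ≃ₐ[K] M, FrAt P g 1 := by
  obtain ⟨σ, Q, hQm, hQv, hQ⟩ := Pool.Agent.W401.Frob.exists_frob (P.under (𝓞 K))
  obtain ⟨ι, hι⟩ := exists_emb' hQm hQv P rfl
  obtain ⟨g, hg⟩ := (emb_bijective ι).2 ((σ : AlgebraicClosure K →ₐ[K] AlgebraicClosure K).comp ι)
  have hg' : ∀ x, σ (ι x) = ι (g x) := fun x => (DFunLike.congr_fun hg x).symm
  refine ⟨g, fun x => ?_⟩
  set q := Ideal.absNorm (P.under (𝓞 K)).asIdeal with hq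
  have hint : IsIntegral ℤ (g (x : M)) :=
    (RingOfIntegers.isIntegral_coe x).map (g.toAlgHom.restrictScalars ℤ)
  obtain ⟨t, ht⟩ : ∃ t : 𝓞 M, (t : M) = g (x : M) := ⟨⟨_, hint⟩, rfl⟩
  refine ⟨t - x ^ q, ?_, ?_⟩
  · rw [← hι]
    have h1 := hQ (oi ι x)
    have h2 : oi ι (t - x ^ q) = σ • oi ι x - oi ι x ^ q := by
      apply RingOfIntegers.ext
      change ι ((t : M) - (x : M) ^ q) = σ (ι (x : M)) - ι (x : M) ^ q
      rw [hg', map_sub, map_pow, ht]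
    rw [h2]
    exact h1
  · rw [pow_one, ← ht]
    rfl

/-- two elements with the same reduction differ by an inertia element -/
theorem FrAt.eq {P : HeightOneSpectrum (𝓞 M)} (hu : Unramified M (P.under (𝓞 K)))
    {g h : M ≃ₐ[K] M} {i : ℕ} (hg : FrAt P g i) (hh : FrAt P h i) : g = h := by
  have h1 : InrAt P (g * h⁻¹) := by
    intro x
    have hint : IsIntegral ℤ (h⁻¹ (x : M)) :=
      (RingOfIntegers.isIntegral_coe x).map ((h⁻¹).toAlgHom.restrictScalars ℤ)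
    obtain ⟨y, hy, hyx⟩ := hg ⟨h⁻¹ (x : M), hint⟩
    obtain ⟨z, hz, hzx⟩ := hh ⟨h⁻¹ (x : M), hint⟩
    refine ⟨y - z, P.asIdeal.sub_mem hy hz, ?_⟩
    change (y : M) - (z : M) = g (h⁻¹ (x : M)) - (x : M)
    rw [hyx, hzx]
    change g (h⁻¹ (x : M)) - (h⁻¹ (x : M)) ^ _ - (h (h⁻¹ (x : M)) - (h⁻¹ (x : M)) ^ _) = _
    have h2 : h (h⁻¹ (x : M)) = x := by
      rw [← AlgEquiv.mul_apply, mul_inv_cancel, AlgEquiv.one_apply]
    rw [h2]
    ring
  exact mul_inv_eq_one.1 (inr_trivial hu h1)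

/-- the residue degree -/
noncomputable def fd (K : Type) {M : Type} [Field K] [NumberField K] [Field M] [NumberField M]
    [Algebra K M] (P : HeightOneSpectrum (𝓞 M)) : ℕ :=
  haveI : P.asIdeal.LiesOver (P.under (𝓞 K)).asIdeal := ⟨rfl⟩
  Module.finrank (𝓞 K ⧸ (P.under (𝓞 K)).asIdeal) (𝓞 M ⧸ P.asIdeal)

/-- the elements of the decomposition group act as powers of the Frobenius -/
theorem exists_frAt {P : HeightOneSpectrum (𝓞 M)} {g : M ≃ₐ[K] M}
    (hg : ∀ x : 𝓞 M, x ∈ P.asIdeal → ∃ y ∈ P.asIdeal, (y : M) = g (x : M)) :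
    ∃ i, FrAt P g i := by
  classical
  set v := P.under (𝓞 K) with hv
  have hlo : P.asIdeal.LiesOver v.asIdeal := ⟨rfl⟩
  have hvm : v.asIdeal.IsMaximal := v.isMaximal
  have hPm : P.asIdeal.IsMaximal := P.isMaximal
  let _ : Field (𝓞 K ⧸ v.asIdeal) := Ideal.Quotient.field _
  let _ : Field (𝓞 M ⧸ P.asIdeal) := Ideal.Quotient.field _
  have hfinF : Finite (𝓞 K ⧸ v.asIdeal) := Ideal.finiteQuotientOfFreeOfNeBot _ v.ne_bot
  have hfinM : Finite (𝓞 M ⧸ P.asIdeal) := Ideal.finiteQuotientOfFreeOfNeBot _ P.ne_bot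
  let _ : Fintype (𝓞 K ⧸ v.asIdeal) := Fintype.ofFinite _
  have hq : Fintype.card (𝓞 K ⧸ v.asIdeal) = Ideal.absNorm v.asIdeal := by
    rw [Ideal.absNorm_apply, Submodule.cardQuot_apply, Nat.card_eq_fintype_card]
  let og : 𝓞 M →+* 𝓞 M := RingOfIntegers.mapRingHom (g : M →+* M)
  have hog : ∀ x : 𝓞 M, ((og x : 𝓞 M) : M) = g (x : M) := fun _ => rfl
  have hle : P.asIdeal ≤ P.asIdeal.comap og := by
    intro x hx
    obtain ⟨y, hy, hyx⟩ := hg x hx
    have : og x = y := RingOfIntegers.ext (by rw [hyx]; rfl)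
    rw [Ideal.mem_comap, this]
    exact hy
  have hcb : ∀ c : 𝓞 K, algebraMap (𝓞 K ⧸ v.asIdeal) (𝓞 M ⧸ P.asIdeal)
      (Ideal.Quotient.mk _ c) = Ideal.Quotient.mk _ (algebraMap (𝓞 K) (𝓞 M) c) := fun c =>
    Ideal.Quotient.algebraMap_mk_of_liesOver _ _ _
  let gb : (𝓞 M ⧸ P.asIdeal) →ₐ[𝓞 K ⧸ v.asIdeal] (𝓞 M ⧸ P.asIdeal) :=
    { toRingHom := Ideal.quotientMap P.asIdeal og hle
      commutes' := by
        intro c
        obtain ⟨c, rfl⟩ := Ideal.Quotient.mk_surjective c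
        rw [hcb]
        change Ideal.quotientMap P.asIdeal og hle (Ideal.Quotient.mk _ _) = _
        rw [Ideal.quotientMap_mk]
        congr 1
        apply RingOfIntegers.ext
        exact g.commutes _ }
  obtain ⟨n, hn⟩ := (FiniteField.bijective_frobeniusAlgHom_pow (𝓞 K ⧸ v.asIdeal)
    (𝓞 M ⧸ P.asIdeal)).2 gb
  refine ⟨n.1, fun x => ?_⟩
  have h1 := DFunLike.congr_fun hn (Ideal.Quotient.mk P.asIdeal x)
  have h2 : gb (Ideal.Quotient.mk P.asIdeal x) = Ideal.Quotient.mk P.asIdeal (og x) := by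
    change Ideal.quotientMap P.asIdeal og hle (Ideal.Quotient.mk _ _) = _
    rw [Ideal.quotientMap_mk]
  have h3 : (FiniteField.frobeniusAlgHom (𝓞 K ⧸ v.asIdeal) (𝓞 M ⧸ P.asIdeal) ^ n.1)
      (Ideal.Quotient.mk P.asIdeal x) = Ideal.Quotient.mk P.asIdeal (x ^ (Ideal.absNorm v.asIdeal ^ n.1)) := by
    rw [AlgHom.coe_pow, FiniteField.coe_frobeniusAlgHom, pow_iterate, hq, map_pow]
  have h4 : Ideal.Quotient.mk P.asIdeal (x ^ (Ideal.absNorm v.asIdeal ^ n.1)) =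
      Ideal.Quotient.mk P.asIdeal (og x) := by
    rw [← h2, ← h3]
    exact h1
  rw [Ideal.Quotient.mk_eq_mk_iff_sub_mem] at h4
  have h5 := P.asIdeal.neg_mem h4
  rw [neg_sub] at h5
  refine ⟨_, h5, ?_⟩
  rfl

/-- the identity is the `f`-th power of the Frobenius modulo `P` -/
theorem frAt_one (P : HeightOneSpectrum (𝓞 M)) : FrAt P (1 : M ≃ₐ[K] M) (fd K P) := by
  classical
  intro x
  set v := P.under (𝓞 K) with hv
  have hlo : P.asIdeal.LiesOver v.asIdeal := ⟨rfl⟩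
  have hvm : v.asIdeal.IsMaximal := v.isMaximal
  have hPm : P.asIdeal.IsMaximal := P.isMaximal
  let _ : Field (𝓞 K ⧸ v.asIdeal) := Ideal.Quotient.field _
  let _ : Field (𝓞 M ⧸ P.asIdeal) := Ideal.Quotient.field _
  have hfinF : Finite (𝓞 K ⧸ v.asIdeal) := Ideal.finiteQuotientOfFreeOfNeBot _ v.ne_bot
  have hfinM : Finite (𝓞 M ⧸ P.asIdeal) := Ideal.finiteQuotientOfFreeOfNeBot _ P.ne_bot
  let _ : Fintype (𝓞 K ⧸ v.asIdeal) := Fintype.ofFinite _
  have hq : Fintype.card (𝓞 K ⧸ v.asIdeal) = Ideal.absNorm v.asIdeal := by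
    rw [Ideal.absNorm_apply, Submodule.cardQuot_apply, Nat.card_eq_fintype_card]
  have h1 := pow_orderOf_eq_one (FiniteField.frobeniusAlgHom (𝓞 K ⧸ v.asIdeal) (𝓞 M ⧸ P.asIdeal))
  rw [FiniteField.orderOf_frobeniusAlgHom] at h1
  have h2 := DFunLike.congr_fun h1 (Ideal.Quotient.mk P.asIdeal x)
  rw [AlgHom.coe_pow, FiniteField.coe_frobeniusAlgHom, pow_iterate, hq, AlgHom.one_apply] at h2
  have h3 : Ideal.Quotient.mk P.asIdeal (x ^ (Ideal.absNorm v.asIdeal ^ fd K P)) =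
      Ideal.Quotient.mk P.asIdeal x := by
    rw [map_pow]
    exact h2
  rw [Ideal.Quotient.mk_eq_mk_iff_sub_mem] at h3
  have h5 := P.asIdeal.neg_mem h3
  rw [neg_sub] at h5
  refine ⟨_, h5, ?_⟩
  rfl

/-- the exponents are determined modulo the residue degree -/
theorem FrAt.modEq {P : HeightOneSpectrum (𝓞 M)} {g : M ≃ₐ[K] M} {i j : ℕ} (hi : FrAt P g i)
    (hj : FrAt P g j) : i ≡ j [MOD (fd K P)] := by
  classical
  set v := P.under (𝓞 K) with hv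
  have hlo : P.asIdeal.LiesOver v.asIdeal := ⟨rfl⟩
  have hvm : v.asIdeal.IsMaximal := v.isMaximal
  have hPm : P.asIdeal.IsMaximal := P.isMaximal
  let _ : Field (𝓞 K ⧸ v.asIdeal) := Ideal.Quotient.field _
  let _ : Field (𝓞 M ⧸ P.asIdeal) := Ideal.Quotient.field _
  have hfinF : Finite (𝓞 K ⧸ v.asIdeal) := Ideal.finiteQuotientOfFreeOfNeBot _ v.ne_bot
  have hfinM : Finite (𝓞 M ⧸ P.asIdeal) := Ideal.finiteQuotientOfFreeOfNeBot _ P.ne_bot
  let _ : Fintype (𝓞 K ⧸ v.asIdeal) := Fintype.ofFinite _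
  have hq : Fintype.card (𝓞 K ⧸ v.asIdeal) = Ideal.absNorm v.asIdeal := by
    rw [Ideal.absNorm_apply, Submodule.cardQuot_apply, Nat.card_eq_fintype_card]
  have key : (FiniteField.frobeniusAlgEquivOfAlgebraic (𝓞 K ⧸ v.asIdeal) (𝓞 M ⧸ P.asIdeal)) ^ i =
      (FiniteField.frobeniusAlgEquivOfAlgebraic (𝓞 K ⧸ v.asIdeal) (𝓞 M ⧸ P.asIdeal)) ^ j := by
    ext x
    obtain ⟨x, rfl⟩ := Ideal.Quotient.mk_surjective x
    rw [AlgEquiv.coe_pow, AlgEquiv.coe_pow, FiniteField.coe_frobeniusAlgEquivOfAlgebraic,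
      pow_iterate, pow_iterate, hq]
    change Ideal.Quotient.mk P.asIdeal x ^ _ = Ideal.Quotient.mk P.asIdeal x ^ _
    rw [← map_pow (Ideal.Quotient.mk P.asIdeal), ← map_pow (Ideal.Quotient.mk P.asIdeal),
      Ideal.Quotient.mk_eq_mk_iff_sub_mem]
    obtain ⟨y, hy, hyx⟩ := hi x
    obtain ⟨z, hz, hzx⟩ := hj x
    have : x ^ (Ideal.absNorm v.asIdeal ^ i) - x ^ (Ideal.absNorm v.asIdeal ^ j) = z - y := by
      apply RingOfIntegers.ext
      change (x : M) ^ _ - (x : M) ^ _ = (z : M) - (y : M)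
      rw [hyx, hzx]
      ring
    rw [this]
    exact P.asIdeal.sub_mem hz hy
  rw [pow_eq_pow_iff_modEq, FiniteField.orderOf_frobeniusAlgEquivOfAlgebraic] at key
  exact key

end

section
variable {K L M : Type} [Field K] [NumberField K] [Field L] [NumberField L] [Field M]
  [NumberField M] [Algebra K L] [Algebra K M] [Algebra L M] [IsScalarTower K L M]

/-- restriction -/
theorem frAt_res [Normal K L] {P : HeightOneSpectrum (𝓞 M)} {g : M ≃ₐ[K] M} {i : ℕ}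
    (hg : FrAt P g i) : FrAt (P.under (𝓞 L)) (g.restrictNormal L) i := by
  intro x
  rw [under_under]
  set q := Ideal.absNorm (P.under (𝓞 K)).asIdeal with hq
  obtain ⟨y, hy, hyx⟩ := hg (algebraMap (𝓞 L) (𝓞 M) x)
  have hint : IsIntegral ℤ (g.restrictNormal L (x : L)) :=
    (RingOfIntegers.isIntegral_coe x).map ((g.restrictNormal L).toAlgHom.restrictScalars ℤ)
  obtain ⟨t, ht⟩ : ∃ t : 𝓞 L, (t : L) = g.restrictNormal L (x : L) := ⟨⟨_, hint⟩, rfl⟩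
  refine ⟨t - x ^ (q ^ i), ?_, by rw [← ht]; rfl⟩
  change algebraMap (𝓞 L) (𝓞 M) _ ∈ P.asIdeal
  have h1 : algebraMap (𝓞 L) (𝓞 M) (t - x ^ (q ^ i)) = y := by
    apply RingOfIntegers.ext
    rw [hyx]
    change algebraMap L M ((t : L) - (x : L) ^ (q ^ i)) =
      g (algebraMap L M (x : L)) - algebraMap L M (x : L) ^ (q ^ i)
    rw [map_sub, ht, AlgEquiv.restrictNormal_commutes, map_pow]
  rw [h1]
  exact hy

end

end Pool.Agent.Q238.MZ
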