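import Pool.Agent.Q5.MZ.Stm
import Pool.Agent.Q238.MZ.Fr

/-!
# Project MZ, job EP: cocycles on the decomposition groups at unramified primes
-/

set_option autoImplicit false
set_option linter.unusedSectionVars false

namespace Pool.Agent.Q238.MZ

open NumberField IsDedekindDomain
open Pool.Agent.Q92.AR (Unramified)
open Pool.Agent.Q5.MZ (TwoPow Coc Dec)

section coc
variable {G : Type} [Group G] (c : G → G → ℤˣ) (φ : G)

/-- the primitive of the cocycle -/
def En (n : ℕ) : ℤˣ := ∏ l ∈ Finset.range n, c (φ ^ l) φ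

theorem En_succ (n : ℕ) : En c φ (n + 1) = En c φ n * c (φ ^ n) φ := Finset.prod_range_succ _ _

variable {c φ}

theorem coc_pow (h1 : c 1 1 = 1) (hc : ∀ g h j, c g h * c (g * h) j = c h j * c g (h * j)) (i j : ℕ) :
    c (φ ^ i) (φ ^ j) = En c φ i * En c φ j * En c φ (i + j) := by
  induction j with
  | zero =>
    have h2 : c (φ ^ i) 1 = 1 := by
      have h3 := hc (φ ^ i) 1 1
      rw [mul_one, mul_one, h1, one_mul] at h3
      exact mul_left_cancel (h3.trans (mul_one _).symm)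
    rw [pow_zero, h2]
    have h3 : En c φ 0 = 1 := rfl
    rw [h3, mul_one, add_zero]
    exact (Int.units_mul_self _).symm
  | succ j ih =>
    have h3 := hc (φ ^ i) (φ ^ j) φ
    rw [← pow_add, ← pow_succ, ih] at h3
    have h4 : c (φ ^ i) (φ ^ (j + 1)) = c (φ ^ j) φ * (En c φ i * En c φ j * En c φ (i + j) *
        c (φ ^ (i + j)) φ) := by
      rw [h3, ← mul_assoc, Int.units_mul_self, one_mul]
    rw [h4, En_succ, ← add_assoc, En_succ]
    ac_rfl

theorem En_add (n m : ℕ) (hφ : φ ^ n = 1) : En c φ (n + m) = En c φ n * En c φ m := by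
  unfold En
  rw [Finset.prod_range_add]
  congr 1
  refine Finset.prod_congr rfl fun l _ => ?_
  rw [pow_add, hφ, one_mul]

theorem En_mul (n s : ℕ) (hφ : φ ^ n = 1) : En c φ (n * s) = En c φ n ^ s := by
  induction s with
  | zero => rw [mul_zero, pow_zero]; rfl
  | succ s ih =>
    have h : φ ^ (n * s) = 1 := by rw [pow_mul, hφ, one_pow]
    rw [Nat.mul_succ, En_add _ _ h, ih, pow_succ]

theorem En_modEq {f1 : ℕ} (hφ : φ ^ f1 = 1) (h1 : En c φ f1 = 1) {i j : ℕ} (hij : i ≡ j [MOD f1]) :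
    En c φ i = En c φ j := by
  have hper : Function.Periodic (En c φ) f1 := by
    intro n
    rw [add_comm, En_add _ _ hφ, h1, one_mul]
  rw [← hper.map_mod_nat i, ← hper.map_mod_nat j, hij]

end coc

/-- the arithmetic -/
theorem even_quot {q f s r : ℕ} (hq : 1 < q) (hodd : Odd q) (hf : 0 < f) (hr : q ^ f < 2 ^ r)
    (hd : 2 ^ r ∣ q ^ (f * s) - 1) : Even s := by
  by_contra hs
  rw [Nat.not_even_iff_odd] at hs
  have h1 : 1 < q ^ f := Nat.one_lt_pow hf.ne' hq
  have h2 : (q ^ f - 1) * (∑ i ∈ Finset.range s, (q ^ f) ^ i) = q ^ (f * s) - 1 := by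
    have h3 := Nat.geomSum_eq (m := q ^ f) (by omega) s
    have h4 : (q ^ f - 1) ∣ (q ^ f) ^ s - 1 := by
      simpa using Nat.sub_dvd_pow_sub_pow (q ^ f) 1 s
    rw [h3, pow_mul, Nat.mul_div_cancel' h4]
  have h5 : Odd (∑ i ∈ Finset.range s, (q ^ f) ^ i) := by
    rw [Finset.odd_sum_iff_odd_card_odd]
    have h6 : (Finset.range s).filter (fun i => Odd ((q ^ f) ^ i)) = Finset.range s :=
      Finset.filter_true_of_mem fun i _ => (hodd.pow).pow
    rw [h6, Finset.card_range]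
    exact hs
  rw [← h2] at hd
  have h7 : Nat.Coprime (2 ^ r) (∑ i ∈ Finset.range s, (q ^ f) ^ i) :=
    (Nat.coprime_two_left.2 h5).pow_left r
  have h8 := h7.dvd_of_dvd_mul_right hd
  have h9 := Nat.le_of_dvd (by omega) h8
  omega

/-- the norm is odd -/
theorem odd_norm {K : Type} [Field K] [NumberField K] {v : HeightOneSpectrum (𝓞 K)}
    (h2 : (2 : 𝓞 K) ∉ v.asIdeal) : Odd (Ideal.absNorm v.asIdeal) := by
  classical
  have hvm : v.asIdeal.IsMaximal := v.isMaximal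
  let _ : Field (𝓞 K ⧸ v.asIdeal) := Ideal.Quotient.field _
  have hfinF : Finite (𝓞 K ⧸ v.asIdeal) := Ideal.finiteQuotientOfFreeOfNeBot _ v.ne_bot
  let _ : Fintype (𝓞 K ⧸ v.asIdeal) := Fintype.ofFinite _
  have hq : Fintype.card (𝓞 K ⧸ v.asIdeal) = Ideal.absNorm v.asIdeal := by
    rw [Ideal.absNorm_apply, Submodule.cardQuot_apply, Nat.card_eq_fintype_card]
  rw [← Nat.not_even_iff_odd, ← hq]
  intro hev
  obtain ⟨p, hp⟩ := CharP.exists (𝓞 K ⧸ v.asIdeal)
  obtain ⟨n, hpp, hn⟩ := FiniteField.card (𝓞 K ⧸ v.asIdeal) p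
  rw [hn] at hev
  have h3 : 2 ∣ p := Nat.prime_two.dvd_of_dvd_pow (even_iff_two_dvd.1 hev)
  have h4 : 2 = p := (Nat.prime_dvd_prime_iff_eq Nat.prime_two hpp).1 h3
  apply h2
  rw [← Ideal.Quotient.eq_zero_iff_mem]
  have h5 : ((p : ℕ) : 𝓞 K ⧸ v.asIdeal) = 0 := CharP.cast_eq_zero _ p
  rw [← h4] at h5
  rw [map_ofNat]
  exact_mod_cast h5

section
variable {K M : Type} [Field K] [NumberField K] [Field M] [NumberField M] [Algebra K M]

/-- roots of unity and the residue degree -/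
theorem root_dvd {P : HeightOneSpectrum (𝓞 M)} (h2 : (2 : 𝓞 K) ∉ (P.under (𝓞 K)).asIdeal)
    {r : ℕ} (hr : 1 ≤ r) {ζ : M} (hζ : IsPrimitiveRoot ζ (2 ^ r)) {n : ℕ}
    (hn : FrAt P (1 : M ≃ₐ[K] M) n) :
    2 ^ r ∣ Ideal.absNorm (P.under (𝓞 K)).asIdeal ^ n - 1 := by
  set q := Ideal.absNorm (P.under (𝓞 K)).asIdeal with hq
  have hq0 : q ≠ 0 := by
    rw [hq, Ne, Ideal.absNorm_eq_zero_iff]
    exact (P.under (𝓞 K)).ne_bot
  have hint : IsIntegral ℤ ζ := hζ.isIntegral (by positivity)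
  obtain ⟨t, ht⟩ : ∃ t : 𝓞 M, (t : M) = ζ := ⟨⟨_, hint⟩, rfl⟩
  obtain ⟨y, hy, hyt⟩ := hn t
  have hy2 : y = t - t ^ (q ^ n) := RingOfIntegers.ext (by rw [hyt]; rfl)
  have ht1 : t ^ (2 ^ r) = 1 := RingOfIntegers.ext (by
    change (t : M) ^ (2 ^ r) = 1
    rw [ht, hζ.pow_eq_one])
  have hneg : t ^ (2 ^ (r - 1)) = -1 := by
    apply RingOfIntegers.ext
    change (t : M) ^ (2 ^ (r - 1)) = -1
    rw [ht]
    have h3 : (ζ ^ (2 ^ (r - 1))) ^ 2 = 1 := by
      rw [← pow_mul, ← pow_succ, Nat.sub_add_cancel hr, hζ.pow_eq_one]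
    have h4 : ζ ^ (2 ^ (r - 1)) ≠ 1 := by
      intro h
      have h5 := hζ.dvd_of_pow_eq_one _ h
      have h6 := Nat.le_of_dvd (by positivity) h5
      have h7 : 2 ^ (r - 1) < 2 ^ r := Nat.pow_lt_pow_right (by norm_num) (by omega)
      omega
    rw [sq] at h3
    rcases mul_self_eq_one_iff.1 h3 with h | h
    · exact absurd h h4
    · exact h
  -- the order modulo `P`
  have hPm : P.asIdeal.IsMaximal := P.isMaximal
  have hPp : P.asIdeal.IsPrime := P.isPrime
  set tb : 𝓞 M ⧸ P.asIdeal := Ideal.Quotient.mk P.asIdeal t with htb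
  have ho : orderOf tb = 2 ^ r := by
    have h8 : r = (r - 1) + 1 := by omega
    rw [h8]
    apply orderOf_eq_prime_pow
    · rw [htb, ← map_pow, hneg]
      intro h
      rw [← map_one (Ideal.Quotient.mk P.asIdeal), Ideal.Quotient.mk_eq_mk_iff_sub_mem] at h
      apply h2
      change algebraMap (𝓞 K) (𝓞 M) 2 ∈ P.asIdeal
      have h9 := P.asIdeal.neg_mem h
      have h10 : -(-1 - 1 : 𝓞 M) = algebraMap (𝓞 K) (𝓞 M) 2 := by
        rw [map_ofNat]
        norm_num
      rwa [h10] at h9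
    · rw [htb, ← map_pow, ← h8, ht1, map_one]
  have h11 : tb ^ (q ^ n - 1) = 1 := by
    have h12 : tb ^ (q ^ n) = tb := by
      rw [htb, ← map_pow, Ideal.Quotient.mk_eq_mk_iff_sub_mem]
      have h13 := P.asIdeal.neg_mem hy
      rw [hy2, neg_sub] at h13
      exact h13
    have h14 : q ^ n = (q ^ n - 1) + 1 := by
      have : 0 < q ^ n := by positivity
      omega
    have h15 : tb ≠ 0 := by
      intro h
      rw [h] at ho
      have h16 : orderOf (0 : 𝓞 M ⧸ P.asIdeal) = 0 := by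
        rw [orderOf_eq_zero_iff']
        intro m hm
        rw [zero_pow hm.ne']
        exact zero_ne_one
      rw [h16] at ho
      have : 0 < 2 ^ r := by positivity
      omega
    rw [h14, pow_succ] at h12
    exact mul_right_cancel₀ h15 (h12.trans (one_mul _).symm)
  rw [← ho]
  exact orderOf_dvd_of_pow_eq_one h11

end

theorem ep : Pool.Agent.Q5.MZ.S_EP := by
  classical
  intro k L _ _ _ _ _ _ c v htp hc hv h2
  obtain ⟨m, hm⟩ := htp
  set q := Ideal.absNorm v.asIdeal with hq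
  refine ⟨q ^ (2 ^ m) + 1, ?_⟩
  intro M _ _ _ _ _ _ ζ hζ P hP
  subst hP
  obtain ⟨φ, hφ⟩ := exists_fr (K := k) (P.under (𝓞 L))
  have hund : (P.under (𝓞 L)).under (𝓞 k) = P.under (𝓞 k) := under_under P
  have hvL : Unramified L ((P.under (𝓞 L)).under (𝓞 k)) := by rw [hund]; exact hv
  -- the order of `φ`
  set f := orderOf φ with hf
  have hfpos : 0 < f := orderOf_pos φ
  have hcard : Nat.card (L ≃ₐ[k] L) = 2 ^ m := by rw [IsGalois.card_aut_eq_finrank, hm]
  have hfd : f ∣ 2 ^ m := by rw [← hcard]; exact orderOf_dvd_natCard φ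
  have hfle : f ≤ 2 ^ m := Nat.le_of_dvd (by positivity) hfd
  -- the residue degree
  set f1 := fd k P with hf1
  have h1M : FrAt P (1 : M ≃ₐ[k] M) f1 := frAt_one P
  have h1L : FrAt (P.under (𝓞 L)) ((1 : M ≃ₐ[k] M).restrictNormal L) f1 := frAt_res h1M
  have hres1 : (1 : M ≃ₐ[k] M).restrictNormal L = 1 := by
    ext x
    apply (algebraMap L M).injective
    rw [AlgEquiv.restrictNormal_commutes]
    rfl
  rw [hres1] at h1L
  have hφf1 : φ ^ f1 = 1 := FrAt.eq hvL (hφ.pow f1) h1L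
  obtain ⟨s, hs⟩ := orderOf_dvd_of_pow_eq_one hφf1
  -- the quotient is even
  have hq1 : 1 < q := by
    have h3 : Ideal.absNorm (P.under (𝓞 k)).asIdeal ≠ 1 := by
      rw [Ne, Ideal.absNorm_eq_one_iff]
      exact (P.under (𝓞 k)).isPrime.ne_top
    have h4 : Ideal.absNorm (P.under (𝓞 k)).asIdeal ≠ 0 := by
      rw [Ne, Ideal.absNorm_eq_zero_iff]
      exact (P.under (𝓞 k)).ne_bot
    omega
  have hqodd : Odd q := odd_norm h2
  have hev : Even s := by
    refine even_quot (q := q) (f := f) (r := q ^ (2 ^ m) + 1) hq1 hqodd hfpos ?_ ?_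
    · calc q ^ f ≤ q ^ (2 ^ m) := Nat.pow_le_pow_right (by omega) hfle
        _ < 2 ^ (q ^ (2 ^ m)) := Nat.lt_two_pow_self
        _ ≤ 2 ^ (q ^ (2 ^ m) + 1) := Nat.pow_le_pow_right (by norm_num) (by omega)
    · rw [← hs]
      exact root_dvd h2 (by omega) hζ h1M
  have hE1 : En c φ f1 = 1 := by
    rw [hs, En_mul _ _ (pow_orderOf_eq_one φ)]
    obtain ⟨t, ht⟩ := hev
    rw [ht, pow_add, ← mul_pow, Int.units_mul_self, one_pow]
  -- the function
  have hex : ∀ g : M ≃ₐ[k] M, g ∈ Dec k P → ∃ i, FrAt P g i := by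
    intro g hg
    apply exists_frAt
    intro x hx
    have hint : IsIntegral ℤ (g (x : M)) :=
      (RingOfIntegers.isIntegral_coe x).map (g.toAlgHom.restrictScalars ℤ)
    obtain ⟨t, ht⟩ : ∃ t : 𝓞 M, (t : M) = g (x : M) := ⟨⟨_, hint⟩, rfl⟩
    refine ⟨t, ?_, ht⟩
    have h3 : Pool.Agent.TeamU.act g P = P := hg
    rw [← h3, Pool.Agent.TeamU.mem_act]
    have h4 : (RingOfIntegers.mapRingEquiv g.toRingEquiv).symm t = x := by
      rw [RingEquiv.symm_apply_eq]
      apply RingOfIntegers.ext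
      rw [ht]
      rfl
    rw [h4]
    exact hx
  have hidx : ∀ g : M ≃ₐ[k] M, ∃ i, g ∈ Dec k P → FrAt P g i := by
    intro g
    by_cases hg : g ∈ Dec k P
    · obtain ⟨i, hi⟩ := hex g hg
      exact ⟨i, fun _ => hi⟩
    · exact ⟨0, fun h => absurd h hg⟩
  choose I hI using hidx
  refine ⟨fun g => En c φ (I g), ?_⟩
  intro g hg h hh
  have hgh : g * h ∈ Dec k P := by
    have h3 : Pool.Agent.TeamU.act g P = P := hg
    have h4 : Pool.Agent.TeamU.act h P = P := hh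
    change Pool.Agent.TeamU.act (g * h) P = P
    rw [Pool.Agent.TeamU.act_mul, h4, h3]
  have hrg : g.restrictNormal L = φ ^ I g := FrAt.eq hvL (frAt_res (hI g hg)) (hφ.pow _)
  have hrh : h.restrictNormal L = φ ^ I h := FrAt.eq hvL (frAt_res (hI h hh)) (hφ.pow _)
  have hmod : I g + I h ≡ I (g * h) [MOD f1] := ((hI g hg).mul (hI h hh)).modEq (hI (g * h) hgh)
  rw [hrg, hrh, coc_pow hc.one hc.coc, En_modEq hφf1 hE1 hmod]
  have h5 : En c φ (I (g * h)) * (En c φ (I g) * En c φ (I h) * En c φ (I (g * h))) =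
      En c φ (I g) * En c φ (I h) * (En c φ (I (g * h)) * En c φ (I (g * h))) := by ac_rfl
  rw [h5, Int.units_mul_self, mul_one]

end Pool.Agent.Q238.MZ
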